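import Pool.Agent.P8H59.JK.FIN
import Pool.Agent.P8H59.JK.THA
import Pool.Agent.P8H59.JK.Nec4
import Pool.Agent.P8H59.JK.Ne4

/-!
# Realisable Jordan–Kronecker invariants of mixed type

Let `T` be an algebraic type with Kronecker blocks of the sizes `2 k_j + 1`. A group of Jordan blocks
(the blocks sharing an eigenvalue) is bad if its largest size occurs at least twice. We prove that
`T` is the Jordan–Kronecker invariant of a finite-dimensional complex Lie algebra if and only if it
has two `1 × 1` Kronecker blocks, or a `3 × 3` Kronecker block, or at most `∑ (k_j + 1)` bad groups,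
provided that the bad groups of `T` are pairwise different (as multisets of sizes), or more
generally that the number of the bad groups and the number of the bad groups that occur once are both
at most, or both larger than, `∑ (k_j + 1)`. The same holds, without any condition on the bad groups,
when all Kronecker blocks are `1 × 1`, or there are two `1 × 1` blocks, or a `3 × 3` block.

The proof was formalised together with helper43 (packages CL, FO, PI, THA), helper86 (GEN, TR, AK,
AG, REAL, FIN), helper87 (GP), helper47 (SI, FR) and helper56 (RK).
-/

namespace Pool.Agent.Results.MP_0fcc55_al.MixedTypes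

open P8H59.JK

/-- The realisable algebraic types, whenever the bad groups are pairwise different; for types with
repeated bad groups the remaining case is: at most one `1 × 1` and no `3 × 3` Kronecker block, some
`k_j ≥ 2`, and `uniqBad ≤ ∑ (k_j + 1) < numBad`. -/
theorem result (T : AlgType) (hT : T.Valid)
    (h : T.uniqBad = T.numBad ∨ (T.kron.map (· + 1)).sum < T.uniqBad ∨
      T.numBad ≤ (T.kron.map (· + 1)).sum ∨ 2 ≤ T.kron.count 0 ∨ 1 ∈ T.kron ∨
      ∀ k ∈ T.kron, k = 0) :
    Realisable T ↔
      (2 ≤ T.kron.count 0 ∨ 1 ∈ T.kron ∨ T.numBad ≤ (T.kron.map (· + 1)).sum) := by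
  constructor
  · intro hr
    by_cases h0 : 2 ≤ T.kron.count 0
    · exact Or.inl h0
    by_cases h1 : 1 ∈ T.kron
    · exact Or.inr (Or.inl h1)
    refine Or.inr (Or.inr ?_)
    have hg := necessary_general T hT (by omega) h1 hr
    rcases h with h | h | h | h | h | h
    · omega
    · omega
    · exact h
    · exact absurd h h0
    · exact absurd h h1
    · have hrep : T.kron = List.replicate T.kron.length 0 :=
        List.eq_replicate_iff.2 ⟨rfl, h⟩
      have hlen : T.kron.length ≤ 1 := by
        by_contra hlt
        apply h0
        rw [hrep, List.count_replicate_self]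
        omega
      have hκ : T.kron = [] ∨ T.kron = [0] := by
        rcases Nat.le_one_iff_eq_zero_or_eq_one.1 hlen with h2 | h2
        · left
          exact List.length_eq_zero_iff.1 h2
        · right
          rw [hrep, h2]
          rfl
      have := necessary T hT hκ hr
      rcases hκ with h2 | h2 <;> rw [h2] at this ⊢ <;> simpa using this
  · rintro (h1 | h1 | h1)
    · exact theoremA T (Or.inl h1)
    · exact theoremA T (Or.inr h1)
    · exact theoremB T hT h1

end Pool.Agent.Results.MP_0fcc55_al.MixedTypes
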